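import Pool.Agent.helper5.BEY.SpecA

set_option autoImplicit false

open Complex MeasureTheory

namespace Pool.Agent.BEY

theorem DUA_range (f : ℕ → ℂ) (h M : ℕ) :
    ∑ a ∈ Finset.range h, ∑ j ∈ Finset.range M, f (a + j * h) = ∑ n ∈ Finset.range (h * M), f n := by
  induction M with
  | zero => simp
  | succ M ih =>
    have h1 : ∀ a ∈ Finset.range h, ∑ j ∈ Finset.range (M + 1), f (a + j * h) =
        ∑ j ∈ Finset.range M, f (a + j * h) + f (h * M + a) := by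
      intro a _
      rw [Finset.sum_range_succ, add_comm a (M * h), mul_comm M h]
    rw [Finset.sum_congr rfl h1, Finset.sum_add_distrib, ih, Nat.mul_succ, Finset.sum_range_add]

theorem DUA_trunc (f : ℕ → ℂ) (L L' : ℕ) (h : ∀ n, L ≤ n → f n = 0) (h' : ∀ n, L' ≤ n → f n = 0) :
    ∑ n ∈ Finset.range L, f n = ∑ n ∈ Finset.range L', f n := by
  have key : ∀ a b : ℕ, a ≤ b → (∀ n, a ≤ n → f n = 0) → ∑ n ∈ Finset.range a, f n = ∑ n ∈ Finset.range b, f n := by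
    intro a b hab ha
    apply Finset.sum_subset (Finset.range_subset_range.mpr hab)
    intro x _ hx
    exact ha x (not_lt.mp (fun hlt => hx (Finset.mem_range.mpr hlt)))
  rcases le_total L L' with hl | hl
  · exact key L L' hl h
  · exact (key L' L hl h').symm

theorem DUA_frac (Q : ℝ) (F : ℝ → ℂ) (H₀ h : ℕ) (_hQ : 1 ≤ Q) (hF : ∀ y, y ∉ Set.Icc Q (4 * Q) → F y = 0)
    (h1 : 1 ≤ h) (h2 : h < 2 * H₀) :
    ∑ n ∈ Finset.range (⌈8 * (H₀ : ℝ) * Q⌉₊ + 1), F ((n : ℝ) / h) =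
      ∑ a ∈ Finset.range h, Pz Q F ((a : ℝ) / h) := by
  have hh : (0 : ℝ) < h := by exact_mod_cast h1
  have h2' : (h : ℝ) < 2 * H₀ := by exact_mod_cast h2
  have e1 : ∀ a ∈ Finset.range h, Pz Q F ((a : ℝ) / h) =
      ∑ j ∈ Finset.range (⌈4 * Q⌉₊ + 1), (fun n : ℕ => F ((n : ℝ) / h)) (a + j * h) := by
    intro a _
    unfold Pz
    apply Finset.sum_congr rfl
    intro j _
    have : (a : ℝ) / h + j = ((a + j * h : ℕ) : ℝ) / h := by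
      push_cast
      field_simp
    rw [this]
  rw [Finset.sum_congr rfl e1]
  refine Eq.trans ?_ (DUA_range (fun n : ℕ => F ((n : ℝ) / h)) h (⌈4 * Q⌉₊ + 1)).symm
  apply DUA_trunc (fun n : ℕ => F ((n : ℝ) / h))
  · intro n hn
    apply hF
    intro hc
    have hc2 : (n : ℝ) / h ≤ 4 * Q := hc.2
    rw [div_le_iff₀ hh] at hc2
    have h3 : (8 * (H₀ : ℝ) * Q) ≤ ⌈8 * (H₀ : ℝ) * Q⌉₊ := Nat.le_ceil _
    have h4 : ((⌈8 * (H₀ : ℝ) * Q⌉₊ + 1 : ℕ) : ℝ) ≤ n := by exact_mod_cast hn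
    push_cast at h4
    nlinarith
  · intro n hn
    apply hF
    intro hc
    have hc2 : (n : ℝ) / h ≤ 4 * Q := hc.2
    rw [div_le_iff₀ hh] at hc2
    have h3 : 4 * Q ≤ ⌈4 * Q⌉₊ := Nat.le_ceil _
    have h4 : ((h * (⌈4 * Q⌉₊ + 1) : ℕ) : ℝ) ≤ n := by exact_mod_cast hn
    push_cast at h4
    nlinarith

theorem DUA_deriv (Q : ℝ) (F F' : ℝ → ℂ) (hd : ∀ y, HasDerivAt F (F' y) y) (x : ℝ) :
    HasDerivAt (Pz Q F) (Pz Q F' x) x := by
  unfold Pz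
  apply HasDerivAt.fun_sum
  intro j _
  have h1 := (hd (x + j)).comp_add_const x (j : ℝ)
  exact h1

theorem DUA_cont (Q : ℝ) (F : ℝ → ℂ) (hc : Continuous F) : Continuous (Pz Q F) := by
  unfold Pz
  fun_prop

theorem DUA_per (Q : ℝ) (F : ℝ → ℂ) (hQ : 1 ≤ Q) (hF : ∀ y, y ∉ Set.Icc Q (4 * Q) → F y = 0) :
    Pz Q F 0 = Pz Q F 1 := by
  unfold Pz
  have e1 : ∀ j : ℕ, F (0 + (j : ℝ)) = (fun k : ℕ => F (k : ℝ)) j := by
    intro j
    simp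
  have e2 : ∀ j : ℕ, F (1 + (j : ℝ)) = (fun k : ℕ => F (k : ℝ)) (j + 1) := by
    intro j
    simp only
    push_cast
    rw [add_comm]
  simp_rw [e1, e2]
  have h0 : F ((0 : ℕ) : ℝ) = 0 := by
    apply hF
    intro hc
    have := hc.1
    push_cast at this
    linarith
  have hN : F ((⌈4 * Q⌉₊ + 1 : ℕ) : ℝ) = 0 := by
    apply hF
    intro hc
    have h1 := hc.2
    have h3 : 4 * Q ≤ ⌈4 * Q⌉₊ := Nat.le_ceil _
    push_cast at h1
    linarith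
  have h5 := Finset.sum_range_succ (fun k : ℕ => F (k : ℝ)) (⌈4 * Q⌉₊ + 1)
  have h6 := Finset.sum_range_succ' (fun k : ℕ => F (k : ℝ)) (⌈4 * Q⌉₊ + 1)
  rw [hN] at h5
  rw [h0] at h6
  rw [add_zero] at h5 h6
  rw [← h5, h6]

theorem DUA_int (Q : ℝ) (F : ℝ → ℂ) (hQ : 1 ≤ Q) (hc : Continuous F) (hF : ∀ y, y ∉ Set.Icc Q (4 * Q) → F y = 0) :
    ∫ x in (0 : ℝ)..1, Pz Q F x = ∫ y : ℝ, F y := by
  unfold Pz
  rw [intervalIntegral.integral_finsetSum]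
  · have e1 : ∀ j ∈ Finset.range (⌈4 * Q⌉₊ + 1), ∫ x in (0 : ℝ)..1, F (x + (j : ℝ)) =
        ∫ x in ((fun k : ℕ => (k : ℝ)) j)..((fun k : ℕ => (k : ℝ)) (j + 1)), F x := by
      intro j _
      rw [intervalIntegral.integral_comp_add_right]
      push_cast
      rw [zero_add, add_comm]
    rw [Finset.sum_congr rfl e1, intervalIntegral.sum_integral_adjacent_intervals (a := fun k : ℕ => (k : ℝ))]
    · apply intervalIntegral.integral_eq_integral_of_support_subset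
      intro y hy
      have hy1 : y ∈ Set.Icc Q (4 * Q) := by
        by_contra hcon
        exact hy (hF y hcon)
      have h3 : 4 * Q ≤ ⌈4 * Q⌉₊ := Nat.le_ceil _
      constructor
      · push_cast
        linarith [hy1.1]
      · push_cast
        linarith [hy1.2]
    · intro k _
      exact hc.intervalIntegrable _ _
  · intro j _
    apply Continuous.intervalIntegrable
    fun_prop

/-- the coefficient of `c m` -/
noncomputable def DUA_a (H₀ : ℕ) (α : ℕ → ℝ) (m : ℤ) : ℂ :=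
  ∑ h ∈ Finset.Ico H₀ (2 * H₀), if (h : ℤ) ∣ m then ((α h : ℝ) : ℂ) * (h : ℂ) else 0

theorem DUA_a_zero (H₀ : ℕ) (α : ℕ → ℝ) (hα : ∀ h, |α h| ≤ 1) : ‖DUA_a H₀ α 0‖ ≤ 2 * (H₀ : ℝ) ^ 2 := by
  unfold DUA_a
  refine (norm_sum_le _ _).trans ?_
  have h1 : ∀ h ∈ Finset.Ico H₀ (2 * H₀), ‖(if (h : ℤ) ∣ 0 then ((α h : ℝ) : ℂ) * (h : ℂ) else 0)‖ ≤ 2 * (H₀ : ℝ) := by
    intro h hh
    have h2 : (h : ℝ) ≤ 2 * H₀ := by
      have := (Finset.mem_Ico.mp hh).2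
      exact_mod_cast this.le
    rw [if_pos (dvd_zero _), norm_mul, Complex.norm_real, Complex.norm_natCast, Real.norm_eq_abs]
    calc |α h| * (h : ℝ) ≤ 1 * (h : ℝ) := by
          apply mul_le_mul_of_nonneg_right (hα h) (Nat.cast_nonneg _)
      _ ≤ 2 * (H₀ : ℝ) := by linarith
  refine (Finset.sum_le_card_nsmul _ _ _ h1).trans ?_
  rw [Nat.card_Ico, nsmul_eq_mul]
  have h3 : ((2 * H₀ - H₀ : ℕ) : ℝ) = (H₀ : ℝ) := by
    congr 1
    omega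
  rw [h3]
  nlinarith

theorem DUA_a_le (H₀ : ℕ) (α : ℕ → ℝ) (hα : ∀ h, |α h| ≤ 1) (m : ℤ) (hm : m ≠ 0) :
    ‖DUA_a H₀ α m‖ ≤ 2 * (H₀ : ℝ) * Pool.Agent.helper84.DM.d m.natAbs := by
  classical
  unfold DUA_a
  refine (norm_sum_le _ _).trans ?_
  have h1 : ∀ h ∈ Finset.Ico H₀ (2 * H₀), ‖(if (h : ℤ) ∣ m then ((α h : ℝ) : ℂ) * (h : ℂ) else 0)‖ ≤
      if (h : ℤ) ∣ m then 2 * (H₀ : ℝ) else 0 := by
    intro h hh
    have h2 : (h : ℝ) ≤ 2 * H₀ := by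
      have := (Finset.mem_Ico.mp hh).2
      exact_mod_cast this.le
    split_ifs with hd
    · rw [norm_mul, Complex.norm_real, Complex.norm_natCast, Real.norm_eq_abs]
      calc |α h| * (h : ℝ) ≤ 1 * (h : ℝ) := by
            apply mul_le_mul_of_nonneg_right (hα h) (Nat.cast_nonneg _)
        _ ≤ 2 * (H₀ : ℝ) := by linarith
    · rw [norm_zero]
  refine (Finset.sum_le_sum h1).trans ?_
  rw [← Finset.sum_filter, Finset.sum_const, nsmul_eq_mul, mul_comm]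
  apply mul_le_mul_of_nonneg_left _ (by positivity)
  unfold Pool.Agent.helper84.DM.d
  norm_cast
  apply Finset.card_le_card
  intro h hh
  rw [Finset.mem_filter] at hh
  rw [Nat.mem_divisors]
  refine ⟨?_, Int.natAbs_ne_zero.mpr hm⟩
  have := Int.natAbs_dvd_natAbs.mpr hh.2
  simpa using this

theorem DUA_tsum (c : ℤ → ℂ) (hc : Summable (fun k => ‖c k‖)) (H₀ : ℕ) (hH : 1 ≤ H₀) (α : ℕ → ℝ) :
    ∑ h ∈ Finset.Ico H₀ (2 * H₀), ((α h : ℝ) : ℂ) * ((h : ℂ) * ∑' k : ℤ, c (h * k)) =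
      ∑' m : ℤ, DUA_a H₀ α m * c m := by
  classical
  have hs : ∀ h : ℕ, Summable (fun m : ℤ => if (h : ℤ) ∣ m then c m else 0) := by
    intro h
    apply Summable.of_norm_bounded hc
    intro m
    split_ifs
    · exact le_rfl
    · rw [norm_zero]
      exact norm_nonneg _
  have e1 : ∀ h ∈ Finset.Ico H₀ (2 * H₀), ((α h : ℝ) : ℂ) * ((h : ℂ) * ∑' k : ℤ, c (h * k)) =
      ∑' m : ℤ, ((α h : ℝ) : ℂ) * (h : ℂ) * (if (h : ℤ) ∣ m then c m else 0) := by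
    intro h hh
    have h1 : 1 ≤ h := hH.trans (Finset.mem_Ico.mp hh).1
    have hinj : Function.Injective (fun k : ℤ => (h : ℤ) * k) := by
      intro a b hab
      have h0 : (h : ℤ) ≠ 0 := by exact_mod_cast (by omega : h ≠ 0)
      exact mul_left_cancel₀ h0 hab
    have h2 := hinj.tsum_eq (f := fun m : ℤ => if (h : ℤ) ∣ m then c m else 0) (by
      intro m hm
      rw [Function.mem_support] at hm
      by_cases hd : (h : ℤ) ∣ m
      · obtain ⟨k, hk⟩ := hd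
        exact ⟨k, hk.symm⟩
      · exact absurd (if_neg hd) hm)
    have h3 : ∀ k : ℤ, (if (h : ℤ) ∣ (h : ℤ) * k then c ((h : ℤ) * k) else 0) = c (h * k) := by
      intro k
      rw [if_pos (dvd_mul_right _ _)]
    simp only [h3] at h2
    rw [h2, ← mul_assoc, tsum_mul_left]
  rw [Finset.sum_congr rfl e1, ← Summable.tsum_finsetSum]
  · apply tsum_congr
    intro m
    unfold DUA_a
    rw [Finset.sum_mul]
    apply Finset.sum_congr rfl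
    intro h _
    split_ifs <;> ring
  · intro h _
    exact (hs h).mul_left _

theorem DUA_int_sum (φ : ℕ → ℝ) (h0 : φ 0 = 0) (hs : Summable φ) :
    Summable (fun m : ℤ => φ m.natAbs) ∧ ∑' m : ℤ, φ m.natAbs = 2 * ∑' k : ℕ, φ k := by
  have h1 : HasSum (fun n : ℕ => (fun m : ℤ => φ m.natAbs) (n : ℤ)) (∑' k : ℕ, φ k) := by
    simpa using hs.hasSum
  have h2 : HasSum (fun n : ℕ => (fun m : ℤ => φ m.natAbs) (-(n : ℤ))) (∑' k : ℕ, φ k) := by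
    simpa using hs.hasSum
  have h3 := HasSum.of_nat_of_neg (f := fun m : ℤ => φ m.natAbs) h1 h2
  refine ⟨h3.summable, ?_⟩
  rw [h3.tsum_eq]
  simp only [Int.natAbs_zero, h0]
  ring

theorem DUA_cs (a c : ℤ → ℂ) (K A B D : ℝ) (hK : 0 < K) (φ : ℕ → ℝ) (hφ0 : φ 0 = 0) (hφ : Summable φ)
    (ha : ∀ m : ℤ, m ≠ 0 → ‖a m‖ ^ 2 / (1 + ((m : ℝ) / K) ^ 2) ≤ D * φ m.natAbs)
    (hc : Summable (fun k => ‖c k‖ ^ 2)) (hcA : ∑' k : ℤ, ‖c k‖ ^ 2 ≤ A)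
    (hc' : Summable (fun k : ℤ => (2 * Real.pi * k) ^ 2 * ‖c k‖ ^ 2))
    (hcB : ∑' k : ℤ, (2 * Real.pi * k) ^ 2 * ‖c k‖ ^ 2 ≤ B) :
    Summable (fun m : ℤ => if m = 0 then 0 else ‖a m‖ * ‖c m‖) ∧
    ∑' m : ℤ, (if m = 0 then 0 else ‖a m‖ * ‖c m‖) ≤
      (D * (2 * ∑' k, φ k)) ^ (1 / 2 : ℝ) * (A + B / K ^ 2) ^ (1 / 2 : ℝ) := by
  obtain ⟨hs1, hs2⟩ := DUA_int_sum φ hφ0 hφ
  have hw : ∀ m : ℤ, 0 < 1 + ((m : ℝ) / K) ^ 2 := fun m => by positivity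
  have hpi : ∀ m : ℤ, (m : ℝ) ^ 2 ≤ (2 * Real.pi * m) ^ 2 := by
    intro m
    have h1 : (1 : ℝ) ≤ (2 * Real.pi) ^ 2 := by
      have := Real.pi_gt_three
      nlinarith
    rw [mul_pow]
    nlinarith [sq_nonneg (m : ℝ)]
  let u : ℤ → ℝ := fun m => if m = 0 then 0 else ‖a m‖ / Real.sqrt (1 + ((m : ℝ) / K) ^ 2)
  let v : ℤ → ℝ := fun m => Real.sqrt (1 + ((m : ℝ) / K) ^ 2) * ‖c m‖
  have hu0 : ∀ m, 0 ≤ u m := by
    intro m
    simp only [u]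
    split_ifs
    · exact le_rfl
    · positivity
  have hv0 : ∀ m, 0 ≤ v m := by
    intro m
    simp only [v]
    positivity
  have huv : ∀ m, u m * v m = if m = 0 then 0 else ‖a m‖ * ‖c m‖ := by
    intro m
    simp only [u, v]
    split_ifs with h
    · ring
    · have h1 : Real.sqrt (1 + ((m : ℝ) / K) ^ 2) ≠ 0 := (Real.sqrt_pos.mpr (hw m)).ne'
      field_simp
  have hu2 : ∀ m, u m ^ (2 : ℝ) ≤ D * φ m.natAbs := by
    intro m
    rw [Real.rpow_two]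
    simp only [u]
    split_ifs with h
    · rw [h, Int.natAbs_zero, hφ0]
      norm_num
    · rw [div_pow, Real.sq_sqrt (hw m).le]
      exact ha m h
  have hv2 : ∀ m, v m ^ (2 : ℝ) ≤ ‖c m‖ ^ 2 + ((2 * Real.pi * m) ^ 2 * ‖c m‖ ^ 2) * (1 / K ^ 2) := by
    intro m
    rw [Real.rpow_two]
    simp only [v]
    rw [mul_pow, Real.sq_sqrt (hw m).le, div_pow]
    have h1 := mul_le_mul_of_nonneg_right (hpi m) (sq_nonneg ‖c m‖)
    have h2 : (0 : ℝ) < 1 / K ^ 2 := by positivity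
    have h3 := mul_le_mul_of_nonneg_right h1 h2.le
    calc (1 + (m : ℝ) ^ 2 / K ^ 2) * ‖c m‖ ^ 2 = ‖c m‖ ^ 2 + ((m : ℝ) ^ 2 * ‖c m‖ ^ 2) * (1 / K ^ 2) := by ring
      _ ≤ _ := by linarith
  have hsu : Summable (fun m => u m ^ (2 : ℝ)) :=
    Summable.of_nonneg_of_le (fun m => Real.rpow_nonneg (hu0 m) _) hu2 (hs1.mul_left D)
  have hsv : Summable (fun m => v m ^ (2 : ℝ)) :=
    Summable.of_nonneg_of_le (fun m => Real.rpow_nonneg (hv0 m) _) hv2 (hc.add (hc'.mul_right (1 / K ^ 2)))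
  have hpq : Real.HolderConjugate 2 2 := Real.HolderConjugate.two_two
  have hsum := Real.summable_mul_of_Lp_Lq_of_nonneg hpq hu0 hv0 hsu hsv
  have hle := Real.inner_le_Lp_mul_Lq_tsum_of_nonneg hpq hu0 hv0 hsu hsv
  simp_rw [huv] at hsum hle
  refine ⟨hsum, hle.trans ?_⟩
  have hA : ∑' m, u m ^ (2 : ℝ) ≤ D * (2 * ∑' k, φ k) := by
    rw [← hs2, ← tsum_mul_left]
    exact hsu.tsum_le_tsum hu2 (hs1.mul_left D)
  have hB : ∑' m, v m ^ (2 : ℝ) ≤ A + B / K ^ 2 := by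
    refine (hsv.tsum_le_tsum hv2 (hc.add (hc'.mul_right (1 / K ^ 2)))).trans ?_
    rw [hc.tsum_add (hc'.mul_right (1 / K ^ 2)), tsum_mul_right]
    have h2 : (0 : ℝ) < 1 / K ^ 2 := by positivity
    have h3 := mul_le_mul_of_nonneg_right hcB h2.le
    calc _ ≤ A + B * (1 / K ^ 2) := by linarith
      _ = A + B / K ^ 2 := by ring
  have hA0 : 0 ≤ ∑' m, u m ^ (2 : ℝ) := tsum_nonneg (fun m => Real.rpow_nonneg (hu0 m) _)
  have hB0 : 0 ≤ ∑' m, v m ^ (2 : ℝ) := tsum_nonneg (fun m => Real.rpow_nonneg (hv0 m) _)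
  apply mul_le_mul
  · exact Real.rpow_le_rpow hA0 hA (by norm_num)
  · exact Real.rpow_le_rpow hB0 hB (by norm_num)
  · exact Real.rpow_nonneg hB0 _
  · exact Real.rpow_nonneg (hA0.trans hA) _

theorem DUA (hFCO : FCO_stmt) (hDIV : DIV_stmt) : DUA_stmt := by
  intro ε hε
  obtain ⟨C, hC, hdiv⟩ := hDIV ε hε
  refine ⟨2 + (8 * C) ^ (1 / 2 : ℝ), by positivity, ?_⟩
  intro Q K₀ F F' H₀ α hQ hK hH hd hcF' hF hα
  have hcF : Continuous F := continuous_iff_continuousAt.mpr (fun y => (hd y).continuousAt)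
  have hH0 : (0 : ℝ) ≤ (H₀ : ℝ) := Nat.cast_nonneg _
  obtain ⟨c, hc1, hc0, hch, hc2, hc2', hc3, hc3'⟩ := hFCO (Pz Q F) (Pz Q F') (fun x => DUA_deriv Q F F' hd x)
    (DUA_cont Q F' hcF') (DUA_per Q F hQ hF)
  have e1 : ∑ h ∈ Finset.Ico H₀ (2 * H₀), ((α h : ℝ) : ℂ) *
      ∑ n ∈ Finset.range (⌈8 * (H₀ : ℝ) * Q⌉₊ + 1), F ((n : ℝ) / h) = ∑' m : ℤ, DUA_a H₀ α m * c m := by
    rw [← DUA_tsum c hc1 H₀ hH α]
    apply Finset.sum_congr rfl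
    intro h hh
    have h1 : 1 ≤ h := hH.trans (Finset.mem_Ico.mp hh).1
    rw [DUA_frac Q F H₀ h hQ hF h1 (Finset.mem_Ico.mp hh).2, hch h h1]
  obtain ⟨hdiv1, hdiv2⟩ := hdiv K₀ hK
  have hd0 : Pool.Agent.helper84.DM.d 0 = 0 := by
    unfold Pool.Agent.helper84.DM.d
    simp
  obtain ⟨hs, hle⟩ := DUA_cs (DUA_a H₀ α) c K₀ (∫ x in (0 : ℝ)..1, ‖Pz Q F x‖ ^ 2)
    (∫ x in (0 : ℝ)..1, ‖Pz Q F' x‖ ^ 2) (4 * (H₀ : ℝ) ^ 2) hK
    (fun k : ℕ => Pool.Agent.helper84.DM.d k ^ 2 / (1 + ((k : ℝ) / K₀) ^ 2)) (by simp [hd0]) hdiv1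
    (by
      intro m hm
      have h1 := DUA_a_le H₀ α hα m hm
      have h2 : ((m.natAbs : ℕ) : ℝ) ^ 2 = (m : ℝ) ^ 2 := by
        rw [Nat.cast_natAbs]
        push_cast
        exact sq_abs _
      have h3 : ‖DUA_a H₀ α m‖ ^ 2 ≤ (2 * (H₀ : ℝ) * Pool.Agent.helper84.DM.d m.natAbs) ^ 2 :=
        pow_le_pow_left₀ (norm_nonneg _) h1 2
      have h4 : (0 : ℝ) < 1 + ((m : ℝ) / K₀) ^ 2 := by positivity
      rw [div_pow, div_pow, h2, ← div_pow, ← mul_div_assoc]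
      apply div_le_div_of_nonneg_right _ h4.le
      calc _ ≤ _ := h3
        _ = _ := by ring) hc2 hc2'.le hc3 hc3'
  have hsum2 : Summable (fun m : ℤ => DUA_a H₀ α m * c m) := by
    apply Summable.of_norm
    have h1 : Summable (fun m : ℤ => (if m = 0 then 0 else ‖DUA_a H₀ α m‖ * ‖c m‖) +
        (if m = 0 then ‖DUA_a H₀ α 0‖ * ‖c 0‖ else 0)) := by
      apply hs.add
      apply summable_of_ne_finset_zero (s := {0})
      intro m hm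
      rw [if_neg (by simpa using hm)]
    apply h1.congr
    intro m
    split_ifs with h
    · rw [h, norm_mul, zero_add]
    · rw [norm_mul, add_zero]
  rw [e1, hsum2.tsum_eq_add_tsum_ite 0]
  refine (norm_add_le _ _).trans ?_
  have h5 : ‖DUA_a H₀ α 0 * c 0‖ ≤ 2 * ((H₀ : ℝ) ^ 2 * ‖∫ y : ℝ, F y‖) := by
    rw [norm_mul, hc0, DUA_int Q F hQ hcF hF]
    calc _ ≤ (2 * (H₀ : ℝ) ^ 2) * ‖∫ y : ℝ, F y‖ :=
          mul_le_mul_of_nonneg_right (DUA_a_zero H₀ α hα) (norm_nonneg _)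
      _ = _ := by ring
  have h6 : ‖∑' m : ℤ, (if m = 0 then 0 else DUA_a H₀ α m * c m)‖ ≤
      ∑' m : ℤ, (if m = 0 then 0 else ‖DUA_a H₀ α m‖ * ‖c m‖) := by
    apply tsum_of_norm_bounded hs.hasSum
    intro m
    split_ifs
    · rw [norm_zero]
    · rw [norm_mul]
  have h7 : (4 * (H₀ : ℝ) ^ 2 * (2 * ∑' k : ℕ, Pool.Agent.helper84.DM.d k ^ 2 / (1 + ((k : ℝ) / K₀) ^ 2))) ^ (1 / 2 : ℝ) ≤
      (8 * C) ^ (1 / 2 : ℝ) * ((H₀ : ℝ) * (K₀ * (1 + K₀) ^ ε) ^ (1 / 2 : ℝ)) := by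
    have h8 : 0 ≤ ∑' k : ℕ, Pool.Agent.helper84.DM.d k ^ 2 / (1 + ((k : ℝ) / K₀) ^ 2) := tsum_nonneg (fun k => by positivity)
    have h9 : (4 * (H₀ : ℝ) ^ 2 * (2 * ∑' k : ℕ, Pool.Agent.helper84.DM.d k ^ 2 / (1 + ((k : ℝ) / K₀) ^ 2))) ≤
        (8 * C) * ((H₀ : ℝ) ^ 2 * (K₀ * (1 + K₀) ^ ε)) := by
      have h10 : 0 ≤ 8 * (H₀ : ℝ) ^ 2 := by positivity
      have h11 := mul_le_mul_of_nonneg_left hdiv2 h10
      calc _ = 8 * (H₀ : ℝ) ^ 2 * ∑' k : ℕ, Pool.Agent.helper84.DM.d k ^ 2 / (1 + ((k : ℝ) / K₀) ^ 2) := by ring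
        _ ≤ _ := h11
        _ = _ := by ring
    refine (Real.rpow_le_rpow (by positivity) h9 (by norm_num)).trans (le_of_eq ?_)
    have hKp : 0 ≤ K₀ * (1 + K₀) ^ ε := by positivity
    rw [Real.mul_rpow (by positivity) (by positivity), Real.mul_rpow (by positivity) hKp]
    congr 2
    rw [← Real.sqrt_eq_rpow, Real.sqrt_sq hH0]
  have hAB : 0 ≤ ((∫ x in (0 : ℝ)..1, ‖Pz Q F x‖ ^ 2) + (∫ x in (0 : ℝ)..1, ‖Pz Q F' x‖ ^ 2) / K₀ ^ 2) ^ (1 / 2 : ℝ) := by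
    apply Real.rpow_nonneg
    have i1 : 0 ≤ ∫ x in (0 : ℝ)..1, ‖Pz Q F x‖ ^ 2 := intervalIntegral.integral_nonneg (by norm_num) (fun x _ => by positivity)
    have i2 : 0 ≤ ∫ x in (0 : ℝ)..1, ‖Pz Q F' x‖ ^ 2 := intervalIntegral.integral_nonneg (by norm_num) (fun x _ => by positivity)
    positivity
  have h12 := h6.trans (hle.trans (mul_le_mul_of_nonneg_right h7 hAB))
  have h13 : 0 ≤ (H₀ : ℝ) ^ 2 * ‖∫ y : ℝ, F y‖ := by positivity
  have hKp : 0 ≤ K₀ * (1 + K₀) ^ ε := by positivity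
  have h14 : 0 ≤ (H₀ : ℝ) * (K₀ * (1 + K₀) ^ ε) ^ (1 / 2 : ℝ) := mul_nonneg hH0 (Real.rpow_nonneg hKp _)
  have h15 := mul_nonneg h14 hAB
  have h16 : 0 ≤ (8 * C) ^ (1 / 2 : ℝ) := by positivity
  have h17 := mul_nonneg h16 h13
  have h18 : ∀ s X Y u v : ℝ, u ≤ 2 * X → v ≤ s * Y → 0 ≤ s * X → 0 ≤ Y → u + v ≤ (2 + s) * (X + Y) := by
    intro s X Y u v hu hv hsX hY
    have h19 : (2 + s) * (X + Y) = 2 * X + s * Y + (s * X + 2 * Y) := by ring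
    rw [h19]
    linarith
  apply h18 _ _ _ _ _ h5 _ h17 h15
  refine h12.trans (le_of_eq ?_)
  ring

end Pool.Agent.BEY
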